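import Mathlib
import Pool.Agent.H31.Q.Geo
import Pool.Agent.H77.Q.Defs

set_option autoImplicit false

/-!
The rooted sides of the words of a code from its sides (MP_a46c6f_co, full Q1).
-/

namespace Pool.Agent.H47.FQ

open Pool.Agent.H98.Code Pool.Agent.H77.Q

theorem rsides {V : Type} {L : Submodule (ZMod 2) (V → K)} {S : (V → K) → Finset V → Prop}
    (hS : Pool.Agent.H31.Q.Sides L S) (e : V) : RSides L e (fun u Y => S u Y ∧ e ∉ Y) where
  root := fun _ _ h => h.2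
  zero := fun u Y h => (hS.mem u Y h.1).2
  ex := by
    intro u hu hz hue h0 _
    obtain ⟨Y, hY⟩ := hS.ex u hu
    obtain ⟨Y, hY, heY⟩ : ∃ Y, S u Y ∧ e ∉ Y := by
      by_cases he : e ∈ Y
      · obtain ⟨Y', hY', h1⟩ := hS.compl u Y hY
        exact ⟨Y', hY', fun h2 => ((h1 e).1 h2).2 he⟩
      · exact ⟨Y, hY, he⟩
    rcases Finset.eq_empty_or_nonempty Y with rfl | hne
    · exact Or.inl (hS.wc u hY hz h0)
    · exact Or.inr ⟨Y, hne, hY, heY⟩
  part := by
    intro u Y h k hk hle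
    obtain ⟨k', hk', e1, e2, e3, -⟩ := hS.part u Y h.1 k hk hle
    exact ⟨k', hk', e1, e2, e3⟩
  mono := by
    intro u Y h hi k hk hz h0 _ hle hoff
    obtain ⟨Y', hY', hSY'⟩ := hS.mono h.1 hi hk hle hoff
    rcases Finset.eq_empty_or_nonempty Y' with rfl | hne
    · exact Or.inl (hS.wc k hSY' hz h0)
    · exact Or.inr ⟨Y', hY', hne, hSY', fun h1 => h.2 (hY' h1)⟩

end Pool.Agent.H47.FQ
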