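import Mathlib
import Pool.Agent.H57.Code.Lp
import Pool.Agent.H98.Code.Defs
import Pool.Agent.H64.Pent.Defs

set_option autoImplicit false

/-!
Sides of the words of the code of a permutation (MP_a46c6f_co, full Q1): the interface `Sides`, and its
proof for `Lp p` when every alternating edge set leaves a bridge.
-/

namespace Pool.Agent.H47.FQ

open Finset Pool.Agent.H98.Code Pool.Agent.H57.Code Pool.Agent.H64.Pent

/-- `S u Y`: `u` is the word of an edge set whose own places are the members of `Y`. -/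
structure Sides {V : Type} [Fintype V] [DecidableEq V] (L : Submodule (ZMod 2) (V → K))
    (S : (V → K) → Finset V → Prop) : Prop where
  mem : ∀ u Y, S u Y → u ∈ L
  ex : ∀ u ∈ L, ∃ Y, S u Y
  nul : S 0 ∅
  zero : ∀ u Y, S u Y → ∀ v ∈ Y, u v = 0
  compl : ∀ u Y, S u Y → S u (univ.filter fun v => u v = 0 ∧ v ∉ Y)
  uniq : ∀ u Y Y', S u Y → S u Y' → Y' = Y ∨ Y' = univ.filter fun v => u v = 0 ∧ v ∉ Y
  wc : ∀ u, S u ∅ → ZFree u → u ≠ 0 → ∃ g, Splits L u g
  part : ∀ u Y u' Y', S u Y → S u' Y' → (∀ v, u v ≠ 0 → u' v = 0 ∨ u' v = u v) →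
    ∃ k, S k (Y ∩ Y') ∧ S (u' + k) (Y'.filter fun v => u v = 0 ∧ v ∉ Y) ∧
      S (u + k) (Y.filter fun v => u' v = 0 ∧ v ∉ Y') ∧ (∀ v ∈ Y, k v = u' v) ∧
      (∀ v, u v = 0 → v ∉ Y → k v = 0) ∧ ∀ v, u v ≠ 0 → k v = 0 ∨ k v = u v

variable {n : ℕ} [NeZero n] {p : Equiv.Perm (ZMod n)}

/-- the own places of the edge set `(a, b)` -/
def own (p : Equiv.Perm (ZMod n)) (a b : ZMod n → ZMod 2) : Finset (ZMod n) :=
  univ.filter fun i => a (i - 1) = 1 ∧ a i = 1 ∧ b (p i - 1) = 1 ∧ b (p i) = 1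

/-- the sides of the words of `Lp p` -/
def Sp (p : Equiv.Perm (ZMod n)) (u : ZMod n → K) (Y : Finset (ZMod n)) : Prop :=
  ∃ a b, Ev p a b ∧ u = word p a b ∧ Y = own p a b

lemma mem_own {a b : ZMod n → ZMod 2} {i : ZMod n} :
    i ∈ own p a b ↔ a (i - 1) = 1 ∧ a i = 1 ∧ b (p i - 1) = 1 ∧ b (p i) = 1 := by
  unfold own
  rw [Finset.mem_filter]
  exact ⟨fun h => h.2, fun h => ⟨mem_univ _, h⟩⟩

lemma z2 : ∀ q : ZMod 2, q = 0 ∨ q = 1 := by decide

lemma loc_zero : ∀ a a' b b' : ZMod 2, a' = 1 → a = 1 → b' = 1 → b = 1 →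
    ((a' + a, a + b) : K) = 0 := by decide

lemma loc_compl : ∀ a a' b b' : ZMod 2, a' + a = b' + b →
    ((1 + a' = 1 ∧ 1 + a = 1 ∧ 1 + b' = 1 ∧ 1 + b = 1) ↔
      (((a' + a, a + b) : K) = 0 ∧ ¬ (a' = 1 ∧ a = 1 ∧ b' = 1 ∧ b = 1))) := by decide

lemma own_compl {a b : ZMod n → ZMod 2} (h : Ev p a b) :
    own p (fun i => 1 + a i) (fun j => 1 + b j) =
      univ.filter fun v => word p a b v = 0 ∧ v ∉ own p a b := by
  ext i
  rw [mem_own, Finset.mem_filter, mem_own]
  have h1 := loc_compl (a i) (a (i - 1)) (b (p i)) (b (p i - 1)) (h i)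
  exact ⟨fun h2 => ⟨mem_univ _, h1.1 h2⟩, fun h2 => h1.2 h2.2⟩

lemma const_of {f : ZMod n → ZMod 2} (h : ∀ i, f (i - 1) = f i) (i : ZMod n) : f i = f 0 := by
  have key : ∀ k : ℕ, f (k : ZMod n) = f 0 := by
    intro k
    induction k with
    | zero => rw [Nat.cast_zero]
    | succ k ih =>
      rw [← ih, Nat.cast_succ]
      have := h ((k : ZMod n) + 1)
      rw [add_sub_cancel_right] at this
      exact this.symm
  have := key i.val
  rwa [ZMod.natCast_zmod_val] at this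

lemma loc_uniq : ∀ a a' b b' c c' d d' : ZMod 2,
    a' + a = b' + b → c' + c = d' + d → ((a' + a, a + b) : K) = (c' + c, c + d) →
    a' + c' = a + c ∧ b + d = a + c := by decide

lemma add1 : ∀ a c : ZMod 2, a + c = 0 → c = a := by decide
lemma add2 : ∀ a c : ZMod 2, a + c = 1 → c = 1 + a := by decide

lemma uniq' {a b a' b' : ZMod n → ZMod 2} (h : Ev p a b) (h' : Ev p a' b')
    (hw : word p a b = word p a' b') :
    (a' = a ∧ b' = b) ∨ (a' = (fun i => 1 + a i) ∧ b' = fun j => 1 + b j) := by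
  have h1 : ∀ i, a (i - 1) + a' (i - 1) = a i + a' i ∧ b (p i) + b' (p i) = a i + a' i := fun i =>
    loc_uniq (a i) (a (i - 1)) (b (p i)) (b (p i - 1)) (a' i) (a' (i - 1)) (b' (p i))
      (b' (p i - 1)) (h i) (h' i) (congrFun hw i)
  have h2 := const_of (f := fun i => a i + a' i) fun i => (h1 i).1
  have h3 : ∀ j, b j + b' j = a 0 + a' 0 := by
    intro j
    have := (h1 (p.symm j)).2
    rw [Equiv.apply_symm_apply] at this
    rw [this]
    exact h2 _
  rcases z2 (a 0 + a' 0) with h0 | h0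
  · refine Or.inl ⟨funext fun i => add1 _ _ ?_, funext fun j => add1 _ _ ?_⟩
    · exact (h2 i).trans h0
    · exact (h3 j).trans h0
  · refine Or.inr ⟨funext fun i => add2 _ _ ?_, funext fun j => add2 _ _ ?_⟩
    · exact (h2 i).trans h0
    · exact (h3 j).trans h0

lemma loc_alt : ∀ a a' b b' : ZMod 2, a' + a = b' + b → ((a' + a, a + b) : K) ≠ z →
    ¬ (a' = 1 ∧ a = 1 ∧ b' = 1 ∧ b = 1) →
    (a' = 0 ∧ a = 0 ∧ b' = 0 ∧ b = 0) ∨ (a' + a = 1 ∧ b' + b = 1) := by
  unfold z; decide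

lemma loc_side : ∀ a a' b b' v : ZMod 2, a' + a = b' + b →
    (1 + a') * v + (1 + a) * v = (1 + b') * v + (1 + b) * v ∧
    (((1 + a') * v + (1 + a) * v, (1 + a) * v + (1 + b) * v) : K) =
      (v * (a' + a), v * (a + b)) := by decide

lemma wc' (hC : Crit p) (u : ZMod n → K) (hS : Sp p u ∅) (hz : ZFree u) (h0 : u ≠ 0) :
    ∃ g, Splits (Lp p) u g := by
  obtain ⟨a, b, hev, rfl, hY⟩ := hS
  have hno : ∀ i, ¬ (a (i - 1) = 1 ∧ a i = 1 ∧ b (p i - 1) = 1 ∧ b (p i) = 1) := by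
    intro i hi
    have : i ∈ own p a b := mem_own.2 hi
    rw [← hY] at this
    exact absurd this (Finset.notMem_empty _)
  have halt : Alt p a b := fun i =>
    loc_alt (a i) (a (i - 1)) (b (p i)) (b (p i - 1)) (hev i) (hz i) (hno i)
  have hex : ∃ i, a i = 1 := by
    by_contra hcon
    push Not at hcon
    have h1 : ∀ i, a i = 0 := fun i => (z2 (a i)).resolve_right (hcon i)
    refine h0 (funext fun i => ?_)
    rcases halt i with ⟨e1, e2, e3, e4⟩ | ⟨e1, e2⟩
    · show ((a (i - 1) + a i, a i + b (p i)) : K) = 0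
      rw [e1, e2, e4]; rfl
    · exfalso
      rw [h1, h1] at e1
      exact absurd e1 (by decide)
  obtain ⟨e, s, t, ⟨e1, e2, e3, e4⟩, ⟨f1, f2, f3, f4⟩, hr⟩ := hC a b halt hex
  have hst : Ev p s t := by
    intro i
    by_cases hi : i = e
    · subst hi
      rw [f1, f2, f3, f4]; decide
    · obtain ⟨v, g1, g2, g3, g4⟩ := hr i hi
      rw [g1, g2, g3, g4]
      exact (loc_side (a i) (a (i - 1)) (b (p i)) (b (p i - 1)) v (hev i)).1
  have hc1 : word p s t e = z := by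
    show ((s (e - 1) + s e, s e + t (p e)) : K) = z
    rw [f1, f2, f4]; rfl
  have hu : word p a b e = 0 := by
    show ((a (e - 1) + a e, a e + b (p e)) : K) = 0
    rw [e1, e2, e4]; rfl
  have kk : ∀ q : K, q + q = 0 := by decide
  refine ⟨e, word p s t, word_mem p s t hst, word p a b + word p s t,
    (Lp p).add_mem (word_mem p a b hev) (word_mem p s t hst), ?_, hc1, ?_, ?_⟩
  · funext i
    show word p s t i + (word p a b i + word p s t i) = word p a b i
    rw [add_left_comm, kk, add_zero]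
  · show word p a b e + word p s t e = z
    rw [hu, hc1, zero_add]
  · intro i hi
    obtain ⟨v, g1, g2, g3, g4⟩ := hr i hi
    have h5 : word p s t i = (v * (a (i - 1) + a i), v * (a i + b (p i))) := by
      show ((s (i - 1) + s i, s i + t (p i)) : K) = _
      rw [g1, g2, g4]
      exact (loc_side (a i) (a (i - 1)) (b (p i)) (b (p i - 1)) v (hev i)).2
    rcases z2 v with hv | hv
    · left
      rw [h5, hv, zero_mul, zero_mul]; rfl
    · right
      show word p a b i + word p s t i = 0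
      rw [h5, hv, one_mul, one_mul]
      exact kk _

lemma loc_ev1' : ∀ a a' b c c' d : ZMod 2,
    (((a' + a, a + b) : K) ≠ 0 → ((c' + c, c + d) : K) = 0 ∨
      ((c' + c, c + d) : K) = (a' + a, a + b)) →
    a' * c' + a * c = (a' + a + b) * (c' + c + d) + b * d := by
  decide

lemma eqs : ∀ a a' b b' : ZMod 2, a' + a = b' + b → b' = a' + a + b := by decide

lemma loc_ev1 (a a' b b' c c' d d' : ZMod 2) (h1 : a' + a = b' + b) (h2 : c' + c = d' + d)
    (h3 : ((a' + a, a + b) : K) ≠ 0 → ((c' + c, c + d) : K) = 0 ∨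
      ((c' + c, c + d) : K) = (a' + a, a + b)) :
    a' * c' + a * c = b' * d' + b * d := by
  rw [eqs _ _ _ _ h1, eqs _ _ _ _ h2]
  exact loc_ev1' _ _ _ _ _ _ h3

lemma loc_ev2 : ∀ a a' b c c' d : ZMod 2,
    (((a' + a, a + b) : K) ≠ 0 → ((c' + c, c + d) : K) = 0 ∨
      ((c' + c, c + d) : K) = (a' + a, a + b)) →
    ((a' + a, a + b) : K) ≠ 0 → ((a' * c' + a * c, a * c + b * d) : K) = 0 ∨
      ((a' * c' + a * c, a * c + b * d) : K) = (a' + a, a + b) := by
  decide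

lemma loc_ev3 : ∀ a a' b b' c c' d : ZMod 2, a' = 1 ∧ a = 1 ∧ b' = 1 ∧ b = 1 →
    ((a' * c' + a * c, a * c + b * d) : K) = (c' + c, c + d) := by
  rintro a a' b b' c c' d ⟨rfl, rfl, rfl, rfl⟩
  rw [one_mul, one_mul, one_mul]

lemma loc_ev4' : ∀ a a' b c c' d : ZMod 2,
    ((a' + a, a + b) : K) = 0 → ¬ (a' = 1 ∧ a = 1 ∧ (a' + a + b) = 1 ∧ b = 1) →
      ((a' * c' + a * c, a * c + b * d) : K) = 0 := by decide

lemma loc_ev4 (a a' b b' c c' d : ZMod 2) (h1 : a' + a = b' + b)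
    (h3 : ((a' + a, a + b) : K) = 0) (h4 : ¬ (a' = 1 ∧ a = 1 ∧ b' = 1 ∧ b = 1)) :
      ((a' * c' + a * c, a * c + b * d) : K) = 0 := by
  rw [eqs _ _ _ _ h1] at h4
  exact loc_ev4' _ _ _ _ _ _ h3 h4

lemma loc_and : ∀ a a' b b' c c' d d' : ZMod 2,
    (a' * c' = 1 ∧ a * c = 1 ∧ b' * d' = 1 ∧ b * d = 1) ↔
      (a' = 1 ∧ a = 1 ∧ b' = 1 ∧ b = 1) ∧ (c' = 1 ∧ c = 1 ∧ d' = 1 ∧ d = 1) := by decide

lemma own_mul (a b c d : ZMod n → ZMod 2) :
    own p (fun i => a i * c i) (fun j => b j * d j) = own p a b ∩ own p c d := by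
  ext i
  rw [mem_own, Finset.mem_inter, mem_own, mem_own]
  exact loc_and _ _ _ _ _ _ _ _

omit [NeZero n] in
lemma word_mul1 (a b c d : ZMod n → ZMod 2) :
    word p c d + word p (fun i => a i * c i) (fun j => b j * d j) =
      word p (fun i => (1 + a i) * c i) (fun j => (1 + b j) * d j) := by
  funext i
  show ((c (i - 1) + c i, c i + d (p i)) : K) +
    (a (i - 1) * c (i - 1) + a i * c i, a i * c i + b (p i) * d (p i)) =
    ((1 + a (i - 1)) * c (i - 1) + (1 + a i) * c i, (1 + a i) * c i + (1 + b (p i)) * d (p i))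
  rw [Prod.mk_add_mk, Prod.mk.injEq]
  constructor <;> ring

omit [NeZero n] in
lemma word_mul2 (a b c d : ZMod n → ZMod 2) :
    word p a b + word p (fun i => a i * c i) (fun j => b j * d j) =
      word p (fun i => a i * (1 + c i)) (fun j => b j * (1 + d j)) := by
  funext i
  show ((a (i - 1) + a i, a i + b (p i)) : K) +
    (a (i - 1) * c (i - 1) + a i * c i, a i * c i + b (p i) * d (p i)) =
    (a (i - 1) * (1 + c (i - 1)) + a i * (1 + c i), a i * (1 + c i) + b (p i) * (1 + d (p i)))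
  rw [Prod.mk_add_mk, Prod.mk.injEq]
  constructor <;> ring

/-- **the sides of the words of `Lp p`** -/
theorem sides (hC : Crit p) : Sides (Lp p) (Sp p) where
  mem := by
    rintro u Y ⟨a, b, h, rfl, -⟩
    exact word_mem p a b h
  ex := by
    rintro u ⟨a, b, h, rfl⟩
    exact ⟨_, a, b, h, rfl, rfl⟩
  nul := by
    refine ⟨0, 0, fun i => by simp, ?_, ?_⟩
    · funext i; rfl
    · symm
      rw [Finset.eq_empty_iff_forall_notMem]
      intro i hi
      have h1 : (0 : ZMod 2) = 1 := (mem_own.1 hi).1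
      exact absurd h1 (by decide)
  zero := by
    rintro u Y ⟨a, b, h, rfl, rfl⟩ v hv
    obtain ⟨h1, h2, h3, h4⟩ := mem_own.1 hv
    exact loc_zero _ _ _ _ h1 h2 h3 h4
  compl := by
    rintro u Y ⟨a, b, h, rfl, rfl⟩
    exact ⟨_, _, h.compl, (word_compl p a b).symm, (own_compl h).symm⟩
  uniq := by
    rintro u Y Y' ⟨a, b, h, hu, rfl⟩ ⟨a', b', h', hu', rfl⟩
    rcases uniq' h h' (hu.symm.trans hu') with ⟨rfl, rfl⟩ | ⟨rfl, rfl⟩
    · exact Or.inl rfl
    · right
      rw [own_compl h, hu]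
  wc := fun u hS hz h0 => wc' hC u hS hz h0
  part := by
    rintro u Y u' Y' ⟨a, b, h, rfl, rfl⟩ ⟨c, d, h', rfl, rfl⟩ hle
    have hev : Ev p (fun i => a i * c i) (fun j => b j * d j) := fun i =>
      loc_ev1 (a i) (a (i - 1)) (b (p i)) (b (p i - 1)) (c i) (c (i - 1)) (d (p i))
        (d (p i - 1)) (h i) (h' i) (hle i)
    refine ⟨word p (fun i => a i * c i) (fun j => b j * d j), ⟨_, _, hev, rfl, (own_mul a b c d).symm⟩,
      ⟨_, _, ?_, word_mul1 a b c d, ?_⟩, ⟨_, _, ?_, word_mul2 a b c d, ?_⟩, ?_, ?_, ?_⟩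
    · intro i
      have e1 := h' i
      have e2 := hev i
      show (1 + a (i - 1)) * c (i - 1) + (1 + a i) * c i =
        (1 + b (p i - 1)) * d (p i - 1) + (1 + b (p i)) * d (p i)
      linear_combination e1 + e2
    · rw [own_mul, own_compl h]
      ext v
      simp only [Finset.mem_filter, Finset.mem_inter, Finset.mem_univ, true_and]
      tauto
    · intro i
      have e1 := h i
      have e2 := hev i
      show a (i - 1) * (1 + c (i - 1)) + a i * (1 + c i) =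
        b (p i - 1) * (1 + d (p i - 1)) + b (p i) * (1 + d (p i))
      linear_combination e1 + e2
    · rw [own_mul, own_compl h']
      ext v
      simp only [Finset.mem_filter, Finset.mem_inter, Finset.mem_univ, true_and]
    · intro v hv
      exact loc_ev3 _ _ _ _ _ _ _ (mem_own.1 hv)
    · intro v h0 hv
      exact loc_ev4 _ _ _ _ _ _ _ (h v) h0 (fun h1 => hv (mem_own.2 h1))
    · intro v hv
      exact loc_ev2 _ _ _ _ _ _ (hle v) hv

lemma loc_own : ∀ a a' b b' : ZMod 2, a' + a = b' + b →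
    ((a' = 1 ∧ a = 1 ∧ b' = 1 ∧ b = 1) ↔ ((a' + a, a + b) : K) = 0 ∧ a = 1) := by decide

theorem mem_own' {a b : ZMod n → ZMod 2} (h : Ev p a b) (i : ZMod n) :
    i ∈ own p a b ↔ word p a b i = 0 ∧ a i = 1 := by
  rw [mem_own]
  exact loc_own _ _ _ _ (h i)

theorem mem_Sp {u : ZMod n → K} {Y : Finset (ZMod n)} : Sp p u Y ↔
    ∃ a b, Ev p a b ∧ u = word p a b ∧ ∀ i, i ∈ Y ↔ (word p a b i = 0 ∧ a i = 1) := by
  constructor
  · rintro ⟨a, b, h, hu, rfl⟩
    exact ⟨a, b, h, hu, mem_own' h⟩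
  · rintro ⟨a, b, h, hu, hY⟩
    exact ⟨a, b, h, hu, by ext i; rw [hY, mem_own' h]⟩

end Pool.Agent.H47.FQ
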